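import Pool.Agent.R719.AT.Cnv
import Pool.Agent.R719.AT.Shp

set_option autoImplicit false

/-!
# Kernel dimensions of diagonally dominant matrices over group rings

For weakly diagonally dominant matrices over the complex group ring of an arbitrary group all kernel
dimensions are sums of reciprocals `1 / |H|` of orders of finite subgroups, all such sums occur, and
the constant one in the condition is sharp: for every `c > 1` the Atiyah conjecture for a group is a
statement about its square matrices which are `c`-dominant by rows and by columns.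
-/

noncomputable section

namespace Pool.Agent.Results.MP_54e5d7_al.DominantMatrices

/-- The kernel of right multiplication by the matrix `A` on `ℓ²(G)^m`. -/
def kernel {G : Type} [Group G] {m n : ℕ} (A : Matrix (Fin m) (Fin n) (G →₀ ℂ)) :
    Set (lp (fun _ : Fin m × G => ℂ) 2) :=
  {x | ∀ (j : Fin n) (g : G),
    ∑ i : Fin m, (A i j).sum (fun h c => x (i, g * h⁻¹) * c) = 0}

open Classical in
/-- The von Neumann dimension of this kernel: the sum over `i` of one minus the squared distance
from the basis vector at `(i, 1)` to the kernel, that is, the trace of the projection onto the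
kernel. -/
def kerDim {G : Type} [Group G] {m n : ℕ} (A : Matrix (Fin m) (Fin n) (G →₀ ℂ)) : ℝ :=
  ∑ i : Fin m, (1 - (Metric.infDist
    (lp.single 2 (i, (1 : G)) (1 : ℂ) : lp (fun _ : Fin m × G => ℂ) 2) (kernel A)) ^ 2)

/-- The sum of the absolute values of the coefficients. -/
def mass {G : Type} (x : G →₀ ℂ) : ℝ := x.sum fun _ c => ‖c‖

/-- The orders of the finite subgroups of `G` are bounded, and `d` is their least common
multiple. -/
def IsLcm (G : Type) [Group G] (d : ℕ) : Prop :=
  (∃ N : ℕ, ∀ H : Subgroup G, Finite H → Nat.card H ≤ N) ∧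
    (∀ H : Subgroup G, Finite H → Nat.card H ∣ d) ∧
    ∀ e : ℕ, (∀ H : Subgroup G, Finite H → Nat.card H ∣ e) → d ∣ e

/-- `r` is a sum of at most `n` numbers `1 / |H|`, with `H` a finite subgroup of `G`. -/
def IsSum (G : Type) [Group G] (n : ℕ) (r : ℝ) : Prop :=
  ∃ (s : ℕ) (H : Fin s → Subgroup G), s ≤ n ∧ (∀ i, Finite (H i)) ∧
    r = ∑ i, (Nat.card (H i) : ℝ)⁻¹

/-- In every row and every column of the square matrix `B` the sum of the absolute values of all
the other coefficients is at most `c` times the absolute value of the coefficient of the identity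
in the diagonal entry. -/
def Dominant {G : Type} [Group G] (c : ℝ) {k : ℕ} (B : Matrix (Fin k) (Fin k) (G →₀ ℂ)) : Prop :=
  (∀ i, ∑ j, mass (B i j) ≤ (1 + c) * ‖B i i 1‖) ∧
    ∀ j, ∑ i, mass (B i j) ≤ (1 + c) * ‖B j j 1‖

open Pool.Agent.R719.AT TH57.Thr.Ati

/-- coefficient functions as elements of the group ring -/
def ofm {G : Type} [Group G] {m n : ℕ} (A : Matrix (Fin m) (Fin n) (G →₀ ℂ)) :
    Matrix (Fin m) (Fin n) (MonoidAlgebra ℂ G) := Matrix.of fun i j => MonoidAlgebra.ofCoeff (A i j)

theorem kerDim_kap {G : Type} [Group G] {m n : ℕ} (A : Matrix (Fin m) (Fin n) (G →₀ ℂ)) :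
    kerDim A = kap (ofm A) := (kerC_dim (ofm A)).symm ▸ rfl

/-- elements of the group ring as coefficient functions -/
def toF {G : Type} [Group G] {m n : ℕ} (B : Matrix (Fin m) (Fin n) (MonoidAlgebra ℂ G)) :
    Matrix (Fin m) (Fin n) (G →₀ ℂ) := Matrix.of fun i j => (B i j).coeff

theorem kerDim_toF {G : Type} [Group G] {m n : ℕ}
    (B : Matrix (Fin m) (Fin n) (MonoidAlgebra ℂ G)) : kerDim (toF B) = kap B :=
  kerDim_kap (toF B)

/-- every matrix has the kernel dimension, up to an integer, of a `c`-dominant matrix -/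
theorem reduction {G : Type} [Group G] (c : ℝ) (hc : 1 < c) {m n : ℕ}
    (A : Matrix (Fin m) (Fin n) (G →₀ ℂ)) :
    ∃ (k : ℕ) (B : Matrix (Fin k) (Fin k) (G →₀ ℂ)), Dominant c B ∧
      (∀ R : Subring ℂ, (∀ i j g, A i j g ∈ R) → ∀ i j g, B i j g ∈ R) ∧
      kerDim B = n + kerDim A := by
  obtain ⟨s, h1, h2, h3⟩ := exists_dom (ofm A) c hc
  let e : Fin (Fintype.card ((Fin m ⊕ Fin n) ⊕ (Fin m ⊕ Fin n)))
    ≃ (Fin m ⊕ Fin n) ⊕ (Fin m ⊕ Fin n) := (Fintype.equivFin _).symm
  let B' : Matrix (Fin (Fintype.card ((Fin m ⊕ Fin n) ⊕ (Fin m ⊕ Fin n))))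
      (Fin (Fintype.card ((Fin m ⊕ Fin n) ⊕ (Fin m ⊕ Fin n)))) (MonoidAlgebra ℂ G) :=
    (Bs (sq (ofm A)) s).submatrix e e
  refine ⟨_, toF B', ⟨fun i => ?_, fun j => ?_⟩, ?_, ?_⟩
  · refine le_trans (le_of_eq ?_) (h2 (e i))
    exact e.sum_comp fun j => n1 (Bs (sq (ofm A)) s (e i) j)
  · refine le_trans (le_of_eq ?_) (h3 (e j))
    exact e.sum_comp fun i => n1 (Bs (sq (ofm A)) s i (e j))
  · intro R hR i j g
    exact Bs_coeff (ofm A) s R hR (e i) (e j) g
  · rw [kerDim_toF, kerDim_kap, kap_re, h1, Fintype.card_fin]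
    ring

/-- Let `G` be any group.

1. Let `A` be an `m × n` matrix over the complex group ring, dominated by rows: for every `i` the
   coefficient at `γ i` in the entry `A i (σ i)`, where `σ` is injective, has absolute value at
   least the sum of the absolute values of all the other coefficients in the row `i`, where the
   coefficients in column `j` are weighted with `p j > 0`. Then `n - m + dim ker A` is a sum of at
   most `n` numbers `1 / |H|`, with `H` a finite subgroup of `G`.
2. If `A` is dominated by columns in the same sense, then `dim ker A` is a sum of at most `m`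
   numbers `1 / |H|`.
3. Every sum of at most `n` numbers `1 / |H|` is `dim ker B` for an `n × n` matrix `B` with integer
   coefficients which is dominant by rows and by columns (with `c = 1`).
4. Let `c > 1`, let `F` be a subfield of `ℂ`, let the orders of the finite subgroups of `G` be
   bounded and let `d` be their least common multiple. Then `d · (n - m + dim ker A)` is an integer
   for all `m × n` matrices `A` over the group ring `F G`, for all `m` and `n`, if and only if
   `d · dim ker B` is an integer for all square matrices `B` over `F G` which are `c`-dominant by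
   rows and by columns. -/
theorem result (G : Type) [Group G] :
    (∀ (m n : ℕ) (A : Matrix (Fin m) (Fin n) (G →₀ ℂ)) (σ : Fin m → Fin n) (γ : Fin m → G)
      (p : Fin n → ℝ), Function.Injective σ → (∀ j, 0 < p j) →
      (∀ i, ∑ j, p j * mass (A i j) ≤ 2 * (p (σ i) * ‖A i (σ i) (γ i)‖)) →
        IsSum G n ((n : ℝ) - (m : ℝ) + kerDim A)) ∧
    (∀ (m n : ℕ) (A : Matrix (Fin m) (Fin n) (G →₀ ℂ)) (τ : Fin n → Fin m) (γ : Fin n → G)
      (q : Fin m → ℝ), Function.Injective τ → (∀ i, 0 < q i) →
      (∀ j, ∑ i, q i * mass (A i j) ≤ 2 * (q (τ j) * ‖A (τ j) j (γ j)‖)) →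
        IsSum G m (kerDim A)) ∧
    (∀ (n : ℕ) (r : ℝ), IsSum G n r → ∃ B : Matrix (Fin n) (Fin n) (G →₀ ℂ), Dominant 1 B ∧
      (∀ i j g, ∃ z : ℤ, B i j g = z) ∧ kerDim B = r) ∧
    ∀ (c : ℝ), 1 < c → ∀ (F : Subfield ℂ) (d : ℕ), IsLcm G d →
      ((∀ (m n : ℕ) (A : Matrix (Fin m) (Fin n) (G →₀ ℂ)), (∀ i j g, A i j g ∈ F) →
        ∃ z : ℤ, (d : ℝ) * ((n : ℝ) - (m : ℝ) + kerDim A) = z) ↔
      ∀ (k : ℕ) (B : Matrix (Fin k) (Fin k) (G →₀ ℂ)), (∀ i j g, B i j g ∈ F) → Dominant c B →
        ∃ z : ℤ, (d : ℝ) * kerDim B = z) := by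
  refine ⟨?_, ?_, ?_, ?_⟩
  · intro m n A σ γ p hσ hp hA
    obtain ⟨s, H, hs, hH, hk⟩ := kap_rows (ofm A) σ γ p ⟨hσ, hp, hA⟩
    rw [Fintype.card_fin, Fintype.card_fin] at hk
    rw [Fintype.card_fin] at hs
    refine ⟨s, H, hs, hH, ?_⟩
    rw [kerDim_kap, hk]
  · intro m n A τ γ q hτ hq hA
    obtain ⟨s, H, hs, hH, hk⟩ := kap_cols (ofm A) τ γ q hτ hq hA
    rw [Fintype.card_fin] at hs
    refine ⟨s, H, hs, hH, ?_⟩
    rw [kerDim_kap, hk]
  · rintro n r ⟨s, H, hs, hH, rfl⟩
    classical
    let H' : Fin n → Subgroup G := fun k => if h : (k : ℕ) < s then H ⟨k, h⟩ else ⊥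
    have hfin : ∀ k, Finite (H' k) := by
      intro k
      by_cases h : (k : ℕ) < s
      · have : H' k = H ⟨k, h⟩ := dif_pos h
        rw [this]; exact hH _
      · have : H' k = ⊥ := dif_neg h
        rw [this]; infer_instance
    have hset : ∀ k, (H' k : Set G).Finite := fun k => Set.toFinite _
    let T : Fin n → Finset G := fun k => (hset k).toFinset
    have hT : ∀ k g, g ∈ T k ↔ g ∈ H' k := fun k g => by
      change g ∈ (hset k).toFinset ↔ _
      rw [Set.Finite.mem_toFinset]
      exact Iff.rfl
    let S : Finset (Fin n) := Finset.univ.filter fun k => (k : ℕ) < s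
    have hDm := Lap_Dm S H' T hT
    have hdiag : ∀ i j, i ≠ j → Lap S H' T i j = 0 := by
      intro i j h
      rw [Lap, Matrix.diagonal_apply_ne _ h]
    have hrow : ∀ i, ∑ j, n1 (Lap S H' T i j) ≤ (1 + 1) * ‖(Lap S H' T i i).coeff 1‖ := by
      intro i
      rw [(hDm i).1, Complex.norm_real, Real.norm_of_nonneg (d_nonneg hDm i)]
      have := (hDm i).2
      linarith
    have hcol : ∀ j, ∑ i, n1 (Lap S H' T i j) = ∑ i, n1 (Lap S H' T j i) := by
      intro j
      rw [Finset.sum_eq_single j, Finset.sum_eq_single j]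
      · intro b _ hb
        rw [hdiag _ _ hb.symm, n1_zero]
      · intro h; exact absurd (Finset.mem_univ _) h
      · intro b _ hb
        rw [hdiag _ _ hb, n1_zero]
      · intro h; exact absurd (Finset.mem_univ _) h
    refine ⟨toF (Lap S H' T), ⟨hrow, fun j => ?_⟩, ?_, ?_⟩
    · have h1 := hcol j
      have h2 := hrow j
      rw [← h1] at h2
      exact h2
    · intro i j g
      change ∃ z : ℤ, (Lap S H' T i j).coeff g = z
      by_cases hij : i = j
      · subst hij
        rw [Lap, Matrix.diagonal_apply_eq]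
        split_ifs with hi
        · rw [xH_coeff]
          split_ifs
          · exact ⟨(T i).card - 1, by push_cast; ring⟩
          · exact ⟨-1, by push_cast; ring⟩
          · exact ⟨0, by push_cast; ring⟩
        · rw [MonoidAlgebra.one_def, MonoidAlgebra.coeff_single, Finsupp.single_apply]
          split_ifs
          · exact ⟨1, by push_cast; ring⟩
          · exact ⟨0, by push_cast; ring⟩
      · rw [hdiag i j hij]
        exact ⟨0, by simp⟩
    · rw [kerDim_toF, kap_Lap S H' T hT]
      have hS : S = (Finset.univ : Finset (Fin s)).map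
          ⟨fun i => Fin.castLE hs i, Fin.castLE_injective hs⟩ := by
        ext k
        rw [Finset.mem_map]
        constructor
        · intro hk
          exact ⟨⟨k, (Finset.mem_filter.1 hk).2⟩, Finset.mem_univ _, Fin.ext rfl⟩
        · rintro ⟨i, _, rfl⟩
          exact Finset.mem_filter.2 ⟨Finset.mem_univ _, i.2⟩
      rw [hS, Finset.sum_map]
      refine Finset.sum_congr rfl fun i _ => ?_
      have : H' (Fin.castLE hs i) = H i := dif_pos i.2
      change (Nat.card (H' (Fin.castLE hs i)) : ℝ)⁻¹ = _
      rw [this]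
  · intro c hc F d _
    constructor
    · intro h k B hB _
      obtain ⟨z, hz⟩ := h k k B hB
      exact ⟨z, by rw [← hz]; ring⟩
    · intro h m n A hA
      obtain ⟨k, B, hB, hR, hk⟩ := reduction c hc A
      obtain ⟨z, hz⟩ := h k B (hR F.toSubring hA) hB
      refine ⟨z - d * m, ?_⟩
      rw [hk] at hz
      push_cast
      linarith

end Pool.Agent.Results.MP_54e5d7_al.DominantMatrices
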