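import Pool.Agent.R472.GridKer

set_option autoImplicit false

/-! # The Atiyah conjecture and the square grid

Let `G` be a group with generating set `S`. If a matrix over the complex group ring has at most two
nonzero entries in each column, all of the form `c g` with `|c| = 1`, the dimension of its kernel is a
sum of numbers `1 / |H|`, `H` a finite subgroup; similarly for rows. On the other hand, let the orders
of the finite subgroups be bounded with least common multiple `d`, and let the field `F ⊆ ℂ` be
generated by `T`. Then the Atiyah conjecture for `G` with coefficients in `F` is a statement about the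
square matrices whose rows and columns are different points of the square grid `ℤ²`, with entries zero
except between neighbouring points, nonzero entries of the form `± s` with `s = 1`, `s ∈ S`, `s⁻¹ ∈ S`,
or `± t`, `t ∈ T`, and at most three of them in each row and in each column.

Outline. (1) If each column of `A` has at most two nonzero entries `c g`, `|c| = 1`, then `A A*` is
weakly diagonally dominant and has the same kernel as `A`; the kernel dimensions of such matrices are
known from `DominantMatrices` (helper719). (2) After clearing denominators, the coefficients are in the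
ring generated by `T`. The matrix `(0, A; 0, 0)` is square, and the normal form of
`MP_8f66f0_al.GridForm` holds for every square matrix over any ring with a set of generators:
`P diag(A, 1) Q` is on the grid for invertible `P`, `Q`. -/

noncomputable section

namespace Pool.Agent.Results.MP_54e5d7_al.GridKernels

/-- The kernel of right multiplication by the matrix `A` on `ℓ²(G)^K`. -/
def kernel {G : Type} [Group G] {K L : Type} [Fintype K] (A : Matrix K L (MonoidAlgebra ℂ G)) :
    Set (lp (fun _ : K × G => ℂ) 2) :=
  {x | ∀ (j : L) (g : G), ∑ i : K, (A i j).coeff.sum (fun h c => x (i, g * h⁻¹) * c) = 0}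

open Classical in
/-- The von Neumann dimension of this kernel: the sum over `i` of one minus the squared distance
from the basis vector at `(i, 1)` to the kernel, that is, the trace of the projection onto the
kernel. -/
def kerDim {G : Type} [Group G] {K L : Type} [Fintype K] (A : Matrix K L (MonoidAlgebra ℂ G)) : ℝ :=
  ∑ i : K, (1 - (Metric.infDist
    (lp.single 2 (i, (1 : G)) (1 : ℂ) : lp (fun _ : K × G => ℂ) 2) (kernel A)) ^ 2)

/-- The orders of the finite subgroups of `G` are bounded, and `d` is their least common
multiple. -/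
def IsLcm (G : Type) [Group G] (d : ℕ) : Prop :=
  (∃ N : ℕ, ∀ H : Subgroup G, Finite H → Nat.card H ≤ N) ∧
    (∀ H : Subgroup G, Finite H → Nat.card H ∣ d) ∧
    ∀ e : ℕ, (∀ H : Subgroup G, Finite H → Nat.card H ∣ e) → d ∣ e

/-- `r` is a sum of at most `n` numbers `1 / |H|`, with `H` a finite subgroup of `G`. -/
def IsSum (G : Type) [Group G] (n : ℕ) (r : ℝ) : Prop :=
  ∃ (s : ℕ) (H : Fin s → Subgroup G), s ≤ n ∧ (∀ i, Finite (H i)) ∧
    r = ∑ i, (Nat.card (H i) : ℝ)⁻¹

/-- neighbouring points of the square grid -/
def Neighbours (a b : ℤ × ℤ) : Prop :=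
  (a.1 = b.1 ∧ (a.2 = b.2 + 1 ∨ a.2 + 1 = b.2)) ∨ (a.2 = b.2 ∧ (a.1 = b.1 + 1 ∨ a.1 + 1 = b.1))

/-- A matrix which is supported on a finite piece of the square grid: its rows are at the points
`ρ i`, its columns at the points `c j`, all these points are different, the entry at `i j` is zero
unless `ρ i` and `c j` are neighbours; the nonzero entries are `± s` with `s = 1`, `s ∈ S` or
`s⁻¹ ∈ S`, or `± t` with `t ∈ T`; each row and each column has at most three of them. -/
def OnGrid {G : Type} [Group G] (S : Set G) (T : Set ℂ) {κ : Type}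
    (B : Matrix κ κ (MonoidAlgebra ℂ G)) : Prop :=
  ∃ ρ c : κ → ℤ × ℤ, Function.Injective ρ ∧ Function.Injective c ∧ (∀ i j, ρ i ≠ c j) ∧
    (∀ i j, B i j ≠ 0 → Neighbours (ρ i) (c j)) ∧
    (∀ i j, B i j = 0 ∨ (∃ s : G, (s = 1 ∨ s ∈ S ∨ s⁻¹ ∈ S) ∧
      (B i j = MonoidAlgebra.single s 1 ∨ B i j = MonoidAlgebra.single s (-1))) ∨
      ∃ t ∈ T, B i j = MonoidAlgebra.single 1 t ∨ B i j = MonoidAlgebra.single 1 (-t)) ∧
    (∀ i, {j | B i j ≠ 0}.ncard ≤ 3) ∧ (∀ j, {i | B i j ≠ 0}.ncard ≤ 3)

/-- all nonzero entries are of the form `c g` with `g ∈ G`, `c ∈ ℂ`, `|c| = 1` -/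
def UnitMonomials {G : Type} [Group G] {K L : Type} (A : Matrix K L (MonoidAlgebra ℂ G)) : Prop :=
  ∀ i j, A i j = 0 ∨ ∃ (g : G) (c : ℂ), ‖c‖ = 1 ∧ A i j = MonoidAlgebra.single g c

open Pool.Agent.R719.AT TH57.Thr.Ati Pool.Agent.R472.Grid

theorem kerDim_kap {G : Type} [Group G] {K L : Type} [Fintype K] [Fintype L] [i1 : DecidableEq K]
    [DecidableEq L] (A : Matrix K L (MonoidAlgebra ℂ G)) : kerDim A = kap A := by
  have h : i1 = fun a b => Classical.propDecidable (a = b) := Subsingleton.elim _ _
  rw [← kerC_dim A]
  subst h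
  rfl

/-- Let `G` be any group.

(1) Let `A` be an `m × n` matrix over the complex group ring with entries `0` and `c g`, `|c| = 1`
(no condition on the positions). If each column has at most two nonzero entries, `dim ker A` is a sum
of at most `m` numbers `1 / |H|`, `H` a finite subgroup of `G`; if each row has at most two nonzero
entries, `n - m + dim ker A` is a sum of at most `n` such numbers.
(2) With three instead of two this would be the whole conjecture: let `S` be a set of generators of
`G`, let `d` be the least common multiple of the orders of the finite subgroups of `G` (assumed to be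
bounded), and let `T` be a set of complex numbers which generates the field `F`. Then
`d (n - m + dim ker A)` is an integer for all `m × n` matrices `A` over `F G`, for all `m` and `n`
(the Atiyah conjecture for `G` with coefficients in `F`), if and only if `d dim ker B` is an integer
for all matrices `B` on the grid with entries in `0`, `± s`, `± t`. -/
theorem result (G : Type) [Group G] :
    (∀ (m n : ℕ) (A : Matrix (Fin m) (Fin n) (MonoidAlgebra ℂ G)), UnitMonomials A →
      ((∀ j, {i | A i j ≠ 0}.ncard ≤ 2) → IsSum G m (kerDim A)) ∧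
      ((∀ i, {j | A i j ≠ 0}.ncard ≤ 2) → IsSum G n ((n : ℝ) - (m : ℝ) + kerDim A))) ∧
    (∀ (S : Set G), Subgroup.closure S = ⊤ → ∀ (T : Set ℂ) (d : ℕ), IsLcm G d →
      ((∀ (m n : ℕ) (A : Matrix (Fin m) (Fin n) (MonoidAlgebra ℂ G)),
        (∀ i j g, (A i j).coeff g ∈ Subfield.closure T) →
        ∃ z : ℤ, (d : ℝ) * ((n : ℝ) - (m : ℝ) + kerDim A) = z) ↔
      ∀ (κ : Type) [Fintype κ] (B : Matrix κ κ (MonoidAlgebra ℂ G)), OnGrid S T B →
        ∃ z : ℤ, (d : ℝ) * kerDim B = z)) := by
  classical
  refine ⟨fun m n A hA => ⟨fun h => ?_, fun h => ?_⟩, fun S hS T d hd => ⟨?_, ?_⟩⟩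
  · obtain ⟨s, H, hs, hH, hk⟩ := kap_two_cols A h hA
    rw [Fintype.card_fin] at hs
    exact ⟨s, H, hs, hH, by rw [kerDim_kap, hk]⟩
  · obtain ⟨s, H, hs, hH, hk⟩ := kap_two_rows A h hA
    rw [Fintype.card_fin, Fintype.card_fin] at hk
    rw [Fintype.card_fin] at hs
    exact ⟨s, H, hs, hH, by rw [kerDim_kap, hk]⟩
  · intro h κ _ B hB
    let e : Fin (Fintype.card κ) ≃ κ := (Fintype.equivFin κ).symm
    obtain ⟨z, hz⟩ := h _ _ (B.submatrix e e) (by
      intro i j g
      obtain ⟨_, _, _, _, _, _, a5, _, _⟩ := hB
      rcases a5 (e i) (e j) with h1 | ⟨s, _, h1 | h1⟩ | ⟨t, ht, h1 | h1⟩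
      · rw [Matrix.submatrix_apply, h1]; exact zero_mem _
      · rw [Matrix.submatrix_apply, h1, MonoidAlgebra.coeff_single, Finsupp.single_apply]
        split_ifs
        · exact one_mem _
        · exact zero_mem _
      · rw [Matrix.submatrix_apply, h1, MonoidAlgebra.coeff_single, Finsupp.single_apply]
        split_ifs
        · exact neg_mem (one_mem _)
        · exact zero_mem _
      · rw [Matrix.submatrix_apply, h1, MonoidAlgebra.coeff_single, Finsupp.single_apply]
        split_ifs
        · exact Subfield.subset_closure ht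
        · exact zero_mem _
      · rw [Matrix.submatrix_apply, h1, MonoidAlgebra.coeff_single, Finsupp.single_apply]
        split_ifs
        · exact neg_mem (Subfield.subset_closure ht)
        · exact zero_mem _)
    rw [kerDim_kap, kap_re, sub_self, zero_add] at hz
    exact ⟨z, by rw [kerDim_kap, hz]⟩
  · intro h m n A hA
    obtain ⟨A', hA', hk'⟩ := clear_den T A hA
    obtain ⟨κ, i1, i2, B, ⟨ρ, c, a1, a2, a3, a4, a5, a6, a7⟩, hk⟩ :=
      grid_kap (one_gens S T) (neg_gens S T) A'
        (fun i j => mem_closure_gens S hS T _ (hA' i j))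
    obtain ⟨z, hz⟩ := h κ B ⟨ρ, c, a1, a2, a3, a4, a5, a6, a7⟩
    refine ⟨z - d * m, ?_⟩
    rw [kerDim_kap, hk, hk', Fintype.card_fin] at hz
    rw [kerDim_kap]
    push_cast
    linarith

end Pool.Agent.Results.MP_54e5d7_al.GridKernels
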