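import Pool.Agent.R625.AT.RandK

set_option autoImplicit false

/-!
# The Atiyah conjecture and random coefficients

For every group `G` and every finite family of terms, a matrix whose coefficients are independent
random numbers without large atoms has, up to a small error and with a probability near `1`, an
integral kernel dimension. This applies to integer coefficients, chosen at random between `-H` and
`H`, whereas a statement about almost all complex coefficients says nothing about them. For the
groups which satisfy the conjecture the kernel dimension is an integer with probability near `1`: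
the torsion of the group is rarely visible in it.

Outline. If `B` and `E` are matrices and `t₁, …, t_q`, `s₁, …, s_q` are different numbers, then
`∑ dim ker (B + t_k E) ≤ rank E + ∑ dim ker (B + s_l E)`: on the space of the tuples `(x_k)` with
`x_k` in the kernel of `B + t_k E` and `E (∑ x_k) = 0` the map `x ↦ (∑_k x_k / (s_l - t_k))_l` goes
to the product of the kernels of the `B + s_l E`, and it is injective, as the Cauchy matrix is
invertible. This exchange inequality is applied to one coefficient after another; when the
coefficients in a matching have been replaced by large ones, the matrix is injective on the rows of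
the matching.
-/

noncomputable section

namespace Pool.Agent.Results.MP_54e5d7_al.RandomCoefficients

/-- The kernel of right multiplication by the matrix `A` on `ℓ²(G)^m`. -/
def kernel {G : Type} [Group G] {m n : ℕ} (A : Matrix (Fin m) (Fin n) (MonoidAlgebra ℂ G)) :
    Set (lp (fun _ : Fin m × G => ℂ) 2) :=
  {x | ∀ (j : Fin n) (g : G),
    ∑ i : Fin m, (A i j).coeff.sum (fun h c => x (i, g * h⁻¹) * c) = 0}

open Classical in
/-- The von Neumann dimension of this kernel: the sum over `i` of one minus the squared distance
from the basis vector at `(i, 1)` to the kernel, that is, the trace of the projection onto the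
kernel. -/
def kerDim {G : Type} [Group G] {m n : ℕ} (A : Matrix (Fin m) (Fin n) (MonoidAlgebra ℂ G)) : ℝ :=
  ∑ i : Fin m, (1 - (Metric.infDist
    (lp.single 2 (i, (1 : G)) (1 : ℂ) : lp (fun _ : Fin m × G => ℂ) 2) (kernel A)) ^ 2)

/-- The matrix obtained from `A` by adding, for each `s`, the number `c s` to the coefficient of
`g` in the entry `(i, j)`, where `σ s = (i, j, g)`. -/
def plus {G : Type} [Group G] {m n N : ℕ} (A : Matrix (Fin m) (Fin n) (MonoidAlgebra ℂ G))
    (σ : Fin N → Fin m × Fin n × G) (c : Fin N → ℂ) :
    Matrix (Fin m) (Fin n) (MonoidAlgebra ℂ G) :=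
  fun i j => A i j + ∑ s, if (σ s).1 = i ∧ (σ s).2.1 = j then
    MonoidAlgebra.single (σ s).2.2 (c s) else 0

/-- The term rank of a family of terms: the largest number of its members in different rows and
different columns. -/
def termRank {G : Type} {m n N : ℕ} (σ : Fin N → Fin m × Fin n × G) : ℕ :=
  sSup {r | ∃ τ : Fin r → Fin N, Function.Injective (fun s => (σ (τ s)).1) ∧
    Function.Injective (fun s => (σ (τ s)).2.1)}

/-- A probability distribution on a finite set of complex numbers: `p z` is the probability
of `z`. -/
def IsDist (p : ℂ →₀ ℝ) : Prop :=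
  (∀ z, 0 ≤ p z) ∧ ∑ z ∈ p.support, p z = 1

/-- The expectation of `f c`, where the numbers `c s` are random and independent, with the
distributions `p s`. -/
def expectation {N : ℕ} (p : Fin N → ℂ →₀ ℝ) (f : (Fin N → ℂ) → ℝ) : ℝ :=
  ∑ c ∈ Fintype.piFinset (fun s => (p s).support), (∏ s, p s (c s)) * f c

/-- The probability that `c` is in `E`, where the numbers `c s` are random and independent, with
the distributions `p s`. -/
def probability {N : ℕ} (p : Fin N → ℂ →₀ ℝ) (E : Set (Fin N → ℂ)) : ℝ :=
  expectation p (E.indicator 1)

open Pool.Agent.R625.AT TH57.Thr.Ati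

theorem kerDim_kap {G : Type} [Group G] {m n : ℕ}
    (A : Matrix (Fin m) (Fin n) (MonoidAlgebra ℂ G)) : kerDim A = kap A :=
  (kerC_dim A).symm ▸ rfl

theorem expect_def {N : ℕ} (p : Fin N → ℂ →₀ ℝ) (f : (Fin N → ℂ) → ℝ) :
    expectation p f = expect p f := rfl

theorem plus_def {G : Type} [Group G] {m n N : ℕ} (A : Matrix (Fin m) (Fin n) (MonoidAlgebra ℂ G))
    (σ : Fin N → Fin m × Fin n × G) (c : Fin N → ℂ) :
    plus A σ c = Pool.Agent.R625.AT.plus A σ c := rfl

theorem termRank_def {G : Type} [Group G] {m n N : ℕ} (σ : Fin N → Fin m × Fin n × G) :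
    termRank σ = trS σ := rfl

/-- **Kernel dimensions for random coefficients.** Let `G` be a group, let `σ` be a finite family
of terms of `m × n` matrices over the complex group ring of `G`, let `c s` be independent random
complex numbers with finitely many values, and let `q` be a positive integer.

1. Let `A` be any matrix and `D` a set of members of the family in different rows and different
   columns. If for `s` in `D` no value of `c s` has a probability above `1 / q`, then the
   expectation of the kernel dimension of `A + ∑ c s σ s` is at most `m - |D| + |D| / q`.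
2. All kernel dimensions of matrices `∑ c s σ s` are at least the integer `m - ν`, where `ν` is the
   term rank of the family.
3. If for all `s` no value of `c s` has a probability above `1 / q`, then the kernel dimension of
   `∑ c s σ s` is at least `m - ν + ε` with probability at most `ν / (q ε)`, for all `ε > 0`.
4. If moreover all these kernel dimensions have the denominator `l`, then it is not the integer
   `m - ν` with probability at most `ν l / q`. -/
theorem result (G : Type) [Group G] (m n N : ℕ) (σ : Fin N → Fin m × Fin n × G)
    (p : Fin N → ℂ →₀ ℝ) (hp : ∀ s, IsDist (p s)) (q : ℕ) (hq : 0 < q) :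
    (∀ (A : Matrix (Fin m) (Fin n) (MonoidAlgebra ℂ G)) (D : Finset (Fin N)),
      Set.InjOn (fun s => (σ s).1) D → Set.InjOn (fun s => (σ s).2.1) D →
      (∀ s ∈ D, ∀ z, p s z ≤ 1 / q) →
      expectation p (fun c => kerDim (plus A σ c)) ≤ m - D.card + D.card / q) ∧
    (∀ c : Fin N → ℂ, (m : ℝ) - termRank σ ≤ kerDim (plus 0 σ c)) ∧
    ((∀ s z, p s z ≤ 1 / q) → ∀ ε : ℝ, 0 < ε →
      probability p {c | (m : ℝ) - termRank σ + ε ≤ kerDim (plus 0 σ c)} ≤
        termRank σ / (q * ε)) ∧
    ((∀ s z, p s z ≤ 1 / q) → ∀ l : ℕ, 0 < l →
      (∀ c : Fin N → ℂ, ∃ z : ℤ, (l : ℝ) * kerDim (plus 0 σ c) = z) →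
      probability p {c | kerDim (plus 0 σ c) ≠ (m : ℝ) - termRank σ} ≤ termRank σ * l / q) := by
  have hp0 : ∀ i z, 0 ≤ p i z := fun i z => (hp i).1 z
  have hp1 : ∀ i, ∑ z ∈ (p i).support, p i z = 1 := fun i => (hp i).2
  have hlow : ∀ c : Fin N → ℂ, (m : ℝ) - termRank σ ≤ kerDim (plus 0 σ c) := by
    intro c
    have h := lower_kap σ c
    rw [Fintype.card_fin] at h
    rw [kerDim_kap, plus_def, termRank_def]
    exact h
  have hprob : (∀ s z, p s z ≤ 1 / q) → ∀ ε : ℝ, 0 < ε →
      probability p {c | (m : ℝ) - termRank σ + ε ≤ kerDim (plus 0 σ c)} ≤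
        termRank σ / (q * ε) := by
    intro h1 ε hε
    have h := prob_kap σ p hp0 hp1 q hq h1 ε hε
    rw [Fintype.card_fin] at h
    unfold probability
    rw [expect_def, termRank_def]
    simp only [kerDim_kap, plus_def]
    exact h
  refine ⟨?_, hlow, hprob, ?_⟩
  · intro A D h1 h2 h3
    have h := expected_kap A σ D h1 h2 p hp0 hp1 q hq h3
    rw [Fintype.card_fin, mul_one_div] at h
    rw [expect_def]
    simp only [kerDim_kap, plus_def]
    exact h
  · intro h1 l hl hint
    have hl' : (0 : ℝ) < l := by exact_mod_cast hl
    have h2 := hprob h1 (1 / l) (by positivity)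
    have h3 : {c | kerDim (plus 0 σ c) ≠ (m : ℝ) - termRank σ} ⊆
        {c | (m : ℝ) - termRank σ + 1 / l ≤ kerDim (plus 0 σ c)} := by
      intro c hc
      have hc' : kerDim (plus 0 σ c) ≠ (m : ℝ) - termRank σ := hc
      have h4 := hlow c
      obtain ⟨z, hz⟩ := hint c
      have h5 : (m : ℝ) - termRank σ < kerDim (plus 0 σ c) := lt_of_le_of_ne h4 (Ne.symm hc')
      have h6 : (l : ℝ) * ((m : ℝ) - termRank σ) < z := by
        rw [← hz]
        exact mul_lt_mul_of_pos_left h5 hl'
      have h7 : (l : ℤ) * ((m : ℤ) - termRank σ) < z := by exact_mod_cast h6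
      have h8 : (l : ℤ) * ((m : ℤ) - termRank σ) + 1 ≤ z := h7
      have h9 : (l : ℝ) * ((m : ℝ) - termRank σ) + 1 ≤ z := by exact_mod_cast h8
      rw [← hz] at h9
      change (m : ℝ) - termRank σ + 1 / l ≤ kerDim (plus 0 σ c)
      refine le_of_mul_le_mul_left ?_ hl'
      rw [mul_add, mul_one_div, div_self hl'.ne']
      exact h9
    have h4 : probability p {c | kerDim (plus 0 σ c) ≠ (m : ℝ) - termRank σ} ≤
        probability p {c | (m : ℝ) - termRank σ + 1 / l ≤ kerDim (plus 0 σ c)} := by
      unfold probability
      rw [expect_def, expect_def]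
      apply expect_mono p hp0
      intro c
      exact Set.indicator_le_indicator_of_subset h3 (fun _ => zero_le_one) c
    refine h4.trans (h2.trans (le_of_eq ?_))
    have hq' : (0 : ℝ) < q := by exact_mod_cast hq
    field_simp

end Pool.Agent.Results.MP_54e5d7_al.RandomCoefficients
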