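import Pool.Agent.R625.AT.Cyc

set_option autoImplicit false

/-!
# The Atiyah conjecture for groups with torsion, the term rank and short closed paths

The von Neumann dimension of the module presented by an `m × n` matrix of term rank `ν` over a
complex group ring is at least `n - ν`; if it is larger by `δ > 0`, then the graph of the matrix has
a closed reduced path of length at most `2 ν / δ`, whatever the group and the coefficients are. Over
finite cyclic groups this is sharp up to the factor `2`.
-/

noncomputable section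

namespace Pool.Agent.Results.MP_54e5d7_al.TermRankAndCycles

/-- The kernel of right multiplication by the matrix `A` on `ℓ²(G)^m`. -/
def kernel {G : Type} [Group G] {m n : ℕ} (A : Matrix (Fin m) (Fin n) (MonoidAlgebra ℂ G)) :
    Set (lp (fun _ : Fin m × G => ℂ) 2) :=
  {x | ∀ (j : Fin n) (g : G),
    ∑ i : Fin m, (A i j).coeff.sum (fun h c => x (i, g * h⁻¹) * c) = 0}

open Classical in
/-- The von Neumann dimension of this kernel: the sum over `i` of one minus the squared distance
from the basis vector at `(i, 1)` to the kernel, that is, the trace of the projection onto the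
kernel. -/
def kerDim {G : Type} [Group G] {m n : ℕ} (A : Matrix (Fin m) (Fin n) (MonoidAlgebra ℂ G)) : ℝ :=
  ∑ i : Fin m, (1 - (Metric.infDist
    (lp.single 2 (i, (1 : G)) (1 : ℂ) : lp (fun _ : Fin m × G => ℂ) 2) (kernel A)) ^ 2)

/-- The von Neumann dimension `n - m + dim ker A` of the module presented by `A`, that is, of
`ℂG^n` modulo the rows of `A`. -/
def modDim {G : Type} [Group G] {m n : ℕ} (A : Matrix (Fin m) (Fin n) (MonoidAlgebra ℂ G)) : ℝ :=
  n - m + kerDim A

/-- The term rank: the largest number of nonzero entries of `A` in different rows and different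
columns. -/
def termRank {G : Type} [Group G] {m n : ℕ} (A : Matrix (Fin m) (Fin n) (MonoidAlgebra ℂ G)) :
    ℕ :=
  sSup {r | ∃ (ρ : Fin r → Fin m) (γ : Fin r → Fin n), Function.Injective ρ ∧
    Function.Injective γ ∧ ∀ s, A (ρ s) (γ s) ≠ 0}

/-- A closed reduced path of the matrix `A`: a nonempty list of pairs
`(e₁, f₁), (e₂, f₂), …, (e_l, f_l)` of terms of `A`, that is, of triples `(i, j, g)` for which the
coefficient of `g` in the entry `A i j` is not zero, such that `e_r ≠ f_r` are in the same column,
`f_r ≠ e_{r+1}` are in the same row, `f_l` and `e₁` are in the same row, and the product of the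
elements `g(e_r) g(f_r)⁻¹` of `G` is `1`. -/
structure ClosedPath {G : Type} [Group G] {m n : ℕ}
    (A : Matrix (Fin m) (Fin n) (MonoidAlgebra ℂ G))
    (z : List ((Fin m × Fin n × G) × (Fin m × Fin n × G))) : Prop where
  nonempty : z ≠ []
  step : ∀ p ∈ z, (A p.1.1 p.1.2.1).coeff p.1.2.2 ≠ 0 ∧ (A p.2.1 p.2.2.1).coeff p.2.2.2 ≠ 0 ∧
    p.2 ≠ p.1 ∧ p.2.2.1 = p.1.2.1
  chain : z.IsChain (fun p q => p.2.1 = q.1.1 ∧ p.2 ≠ q.1)
  closed : z.head?.map (fun p => p.1.1) = z.getLast?.map (fun p => p.2.1)
  value : (z.map (fun p => p.1.2.2 * p.2.2.2⁻¹)).prod = 1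

open Pool.Agent.R625.AT TH57.Thr.Ati

theorem kerDim_kap {G : Type} [Group G] {m n : ℕ}
    (A : Matrix (Fin m) (Fin n) (MonoidAlgebra ℂ G)) : kerDim A = kap A :=
  (kerC_dim A).symm ▸ rfl

theorem cp_iff {G : Type} [Group G] {m n : ℕ} (A : Matrix (Fin m) (Fin n) (MonoidAlgebra ℂ G))
    (z : List ((Fin m × Fin n × G) × (Fin m × Fin n × G))) : ClosedPath A z ↔ Cp A z := by
  constructor
  · rintro ⟨h1, h2, h3, h4, h5⟩
    exact ⟨h1, ⟨fun p hp => ⟨(mem_terms A _).2 (h2 p hp).1, (mem_terms A _).2 (h2 p hp).2.1,
      (h2 p hp).2.2⟩, h3⟩, h4, h5⟩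
  · rintro ⟨h1, ⟨h2, h3⟩, h4, h5⟩
    exact ⟨h1, fun p hp => ⟨(mem_terms A _).1 (h2 p hp).1, (mem_terms A _).1 (h2 p hp).2.1,
      (h2 p hp).2.2⟩, h3, h4, h5⟩

/-- **The dimension of a presented module, the term rank and closed paths.**

Let `G` be a group and `A` an `m × n` matrix over the complex group ring of `G`, with term rank
`ν`, and let `M` be the module which it presents.

1. The von Neumann dimension of `M` is at least `n - ν`.
2. If all closed reduced paths of `A` are longer than `2 N`, then it is at most
   `n - ν + ν / (N + 1)`.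
3. If it is not the integer `n - ν`, and `δ > 0` is the difference, then `A` has a closed reduced
   path of length at most `2 ν / δ`.
4. For every `l ≥ 2` there are a group with `l` elements and a `1 × 1` matrix `1 - g` of term rank
   `1` over it, for which the dimension is `1 / l` (so `δ = 1 / l`) and all closed reduced paths
   have length at least `l`. -/
theorem result :
    (∀ (G : Type) [Group G] (m n : ℕ) (A : Matrix (Fin m) (Fin n) (MonoidAlgebra ℂ G)),
      (n : ℝ) - termRank A ≤ modDim A ∧
      (∀ N : ℕ, (∀ z, ClosedPath A z → 2 * N < z.length) →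
        modDim A ≤ n - termRank A + termRank A / (N + 1)) ∧
      (modDim A ≠ n - termRank A → ∃ z, ClosedPath A z ∧
        (z.length : ℝ) * (modDim A - (n - termRank A)) ≤ 2 * termRank A)) ∧
    (∀ l : ℕ, 2 ≤ l → ∃ (G : Type) (_ : Group G) (g : G), Nat.card G = l ∧
      ∀ A : Matrix (Fin 1) (Fin 1) (MonoidAlgebra ℂ G),
        A = (fun _ _ => MonoidAlgebra.single 1 1 - MonoidAlgebra.single g 1) →
        modDim A = 1 / l ∧ termRank A = 1 ∧ ∀ z, ClosedPath A z → l ≤ z.length) := by
  refine ⟨?_, ?_⟩
  · intro G _ m n A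
    have h1 := rank_term A
    have h2 : trk A = termRank A := rfl
    rw [h2, Fintype.card_fin] at h1
    have h3 : modDim A = n - m + kap A := by
      unfold modDim
      rw [kerDim_kap]
    rw [h3]
    refine ⟨by linarith [h1.1], fun N hN => ?_, fun hne => ?_⟩
    · have h4 := h1.2.1 N fun z hz => hN z ((cp_iff A z).2 hz)
      linarith
    · obtain ⟨z, hz1, hz2⟩ := h1.2.2 (fun h => hne (by rw [h]; ring))
      refine ⟨z, (cp_iff A z).2 hz1, ?_⟩
      have h4 : (n : ℝ) - m + kap A - (n - termRank A) = kap A - (m - termRank A) := by ring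
      rw [h4]
      exact hz2
  · intro l hl
    have hl0 : NeZero l := ⟨by omega⟩
    refine ⟨Multiplicative (ZMod l), inferInstance, Multiplicative.ofAdd 1, ?_, ?_⟩
    · rw [Nat.card_eq_fintype_card, Fintype.card_multiplicative, ZMod.card]
    · intro A hA
      have hg : ∀ x : Multiplicative (ZMod l), x ∈ Subgroup.zpowers
          (Multiplicative.ofAdd (1 : ZMod l)) := by
        intro x
        rw [Subgroup.mem_zpowers_iff]
        refine ⟨((Multiplicative.toAdd x).val : ℤ), ?_⟩
        rw [zpow_natCast, ← ofAdd_nsmul, nsmul_eq_mul, mul_one, ZMod.natCast_zmod_val]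
        rfl
      have hg1 : (Multiplicative.ofAdd (1 : ZMod l)) ≠ 1 := by
        intro h
        have h2 : (1 : ZMod l) = 0 := Multiplicative.ofAdd.injective h
        have : Fact (1 < l) := ⟨by omega⟩
        exact one_ne_zero h2
      have hord : orderOf (Multiplicative.ofAdd (1 : ZMod l)) = l := by
        rw [orderOf_ofAdd_eq_addOrderOf, ZMod.addOrderOf_one]
      have hA' : A = oneSub (Multiplicative.ofAdd (1 : ZMod l)) := hA
      rw [hA']
      refine ⟨?_, ?_, ?_⟩
      · unfold modDim
        rw [kerDim_kap, kap_oneSub _ hg, Fintype.card_multiplicative, ZMod.card]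
        push_cast
        ring
      · exact trk_oneSub _ hg1
      · intro z hz
        have h3 := cp_oneSub _ z ((cp_iff _ z).1 hz)
        rwa [hord] at h3

end Pool.Agent.Results.MP_54e5d7_al.TermRankAndCycles
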